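import Pool.Agent.V11276.TM4

/-!
MP_1a5b88_nt (2-adic valuations of coefficients of the `(2^k+1)`-th power of the Thue-Morse product),
Q1.

Q1 is FALSE: for `k = 4` the valuation of `t_17(16 n + j)` is not a function of `ν_2(n + 1)`
(already for `n = 31`: `ν_2(t_17(496)) = 18`, `ν_2(t_17(504)) = 19`).
-/

namespace Pool.Agent.Results.MP_1a5b88_nt.QuestionOneFails

open PowerSeries

/-- The formal power series `F(x) = ∏_{i ≥ 0} (1 - x^(2^i))`: its `n`-th coefficient is the `n`-th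
coefficient of the product of the factors with `i ≤ n` (the other factors are `1` modulo
`x^(n+1)`). -/
noncomputable def F : ℤ⟦X⟧ :=
  PowerSeries.mk fun n => coeff n (∏ i ∈ Finset.range (n + 1), (1 - (X : ℤ⟦X⟧) ^ (2 ^ i)))

/-- `t m n = t_m(n)`, the coefficient of `x^n` in `F(x)^m`. -/
noncomputable def t (m n : ℕ) : ℤ := coeff n (F ^ m)

/-- Sanity check of the definition of `F` (not used below): truncations may be taken later. -/
theorem F_stable (n N : ℕ) (h : n < 2 ^ N) :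
    coeff n F = coeff n (∏ i ∈ Finset.range N, (1 - (X : ℤ⟦X⟧) ^ (2 ^ i))) :=
  Pool.Agent.V11276.TM.coeff_F h

/-- Q1 fails, and it fails at `k = 4`, where no function of `ν_2(n + 1)` at all is possible. -/
theorem result :
    (¬ ∀ k : ℕ, 2 ≤ k → ∃ A : ℕ → ℕ, StrictMono A ∧ A 0 = 0 ∧ ∀ n j : ℕ, j < 2 ^ k →
      emultiplicity (2 : ℤ) (t (2 ^ k + 1) (2 ^ k * n + j)) = (A (padicValNat 2 (n + 1)) : ℕ∞)) ∧
    (¬ ∃ A : ℕ → ℕ∞, ∀ n j : ℕ, j < 16 →
      emultiplicity (2 : ℤ) (t 17 (16 * n + j)) = A (padicValNat 2 (n + 1))) := by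
  have h1 : emultiplicity (2 : ℤ) (t 17 496) = (18 : ℕ) := Pool.Agent.V11276.TM.val496
  have h2 : emultiplicity (2 : ℤ) (t 17 504) = (19 : ℕ) := Pool.Agent.V11276.TM.val504
  have key : ¬ ∃ A : ℕ → ℕ∞, ∀ n j : ℕ, j < 16 →
      emultiplicity (2 : ℤ) (t 17 (16 * n + j)) = A (padicValNat 2 (n + 1)) := by
    rintro ⟨A, hA⟩
    have g1 := hA 31 0 (by norm_num)
    have g2 := hA 31 8 (by norm_num)
    norm_num only at g1 g2
    rw [h1] at g1
    rw [h2, ← g1] at g2
    have : (19 : ℕ) = 18 := by exact_mod_cast g2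
    omega
  refine ⟨?_, key⟩
  intro h
  obtain ⟨A, _, _, hA⟩ := h 4 (by norm_num)
  exact key ⟨fun r => (A r : ℕ∞), fun n j hj => hA n j (by norm_num; exact hj)⟩

end Pool.Agent.Results.MP_1a5b88_nt.QuestionOneFails
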