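import Pool.Agent.V11276.TM4

/-!
MP_1a5b88_nt (2-adic valuations of coefficients of the `(2^k+1)`-th power of the Thue-Morse product),
Q2.

Q2 is TRUE: both explicit formulas (`k = 2` and `k = 3`) hold for all `n`.

Proof: the blocks `(t(2^k N + j))_j` satisfy linear recurrences under `N ↦ 2N, 2N+1`; an
explicit sublattice of `ℤ^4` (resp. `ℤ^8`) is invariant, all blocks with even index lie in one coset,
and the valuations along `N ↦ 2N+1` are followed through two further explicit congruence classes.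
-/

namespace Pool.Agent.Results.MP_1a5b88_nt.QuestionTwo

open PowerSeries

/-- The formal power series `F(x) = ∏_{i ≥ 0} (1 - x^(2^i))`: its `n`-th coefficient is the `n`-th
coefficient of the product of the factors with `i ≤ n` (the other factors are `1` modulo
`x^(n+1)`). -/
noncomputable def F : ℤ⟦X⟧ :=
  PowerSeries.mk fun n => coeff n (∏ i ∈ Finset.range (n + 1), (1 - (X : ℤ⟦X⟧) ^ (2 ^ i)))

/-- `t m n = t_m(n)`, the coefficient of `x^n` in `F(x)^m`. -/
noncomputable def t (m n : ℕ) : ℤ := coeff n (F ^ m)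

/-- Sanity check of the definition of `F` (not used below): truncations may be taken later. -/
theorem F_stable (n N : ℕ) (h : n < 2 ^ N) :
    coeff n F = coeff n (∏ i ∈ Finset.range N, (1 - (X : ℤ⟦X⟧) ^ (2 ^ i))) :=
  Pool.Agent.V11276.TM.coeff_F h

theorem result :
    -- `k = 2`
    (∀ n j : ℕ, j < 4 → emultiplicity (2 : ℤ) (t 5 (4 * n + j)) =
      ((4 * ((padicValNat 2 (n + 1) + 1) / 2) - padicValNat 2 (n + 1) % 2 : ℕ) : ℕ∞)) ∧
    -- `k = 3`
    (∀ n j : ℕ, j < 8 → emultiplicity (2 : ℤ) (t 9 (8 * n + j)) =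
      ((5 * ((padicValNat 2 (n + 1) + 1) / 2) - 2 * (padicValNat 2 (n + 1) % 2) : ℕ) : ℕ∞)) :=
  ⟨fun n j hj => Pool.Agent.V11276.TM.val5 n j hj,
    fun n j hj => Pool.Agent.V11276.TM.val9 n j hj⟩

end Pool.Agent.Results.MP_1a5b88_nt.QuestionTwo
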